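import Pool.Agent.SZG.StmtsM

set_option autoImplicit false

/-!
# SZG, row NFO (helper28): the normal form of the theta vectors modulo `θ`
-/

namespace Pool.Agent.SZG.H28

open scoped BigOperators
open Pool.Agent.THS

theorem exists_mx {K : Type} [Field K] {g : ℕ} (v : AbsoluteValue K ℝ) (y : Ch g → K) :
    ∃ a, v (y a) = nv v y := by
  obtain ⟨a, ha⟩ := exists_eq_ciSup_of_finite (f := fun a => v (y a))
  exact ⟨a, ha⟩

theorem le_nv {K : Type} [Field K] {g : ℕ} (v : AbsoluteValue K ℝ) (y : Ch g → K) (a : Ch g) :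
    v (y a) ≤ nv v y :=
  le_ciSup (f := fun a => v (y a)) (Set.finite_range _).bddAbove a

theorem nv_pos {K : Type} [Field K] {g : ℕ} (v : AbsoluteValue K ℝ) (y : Ch g → K) (h : y ≠ 0) :
    0 < nv v y := by
  obtain ⟨a, ha⟩ := Function.ne_iff.mp h
  exact lt_of_lt_of_le (v.pos ha) (le_nv v y a)

/-- exponents of `A` -/
theorem expA {K : Type} [Field K] (A : K) (hA : A ≠ 0) (n : ℤ) (a b c : K) :
    a * A ^ (-(n + 1) ^ 2) * (b * A ^ (-(n - 1) ^ 2)) / (c * A ^ (-n ^ 2)) ^ 2 =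
      a * b / (A ^ 2 * c ^ 2) := by
  have h : A ^ (-(n + 1) ^ 2) * A ^ (-(n - 1) ^ 2) = (A ^ (-n ^ 2)) ^ 2 * (A ^ 2)⁻¹ := by
    have e2 : (A ^ 2)⁻¹ = A ^ (-((2 : ℕ) : ℤ)) := by
      rw [zpow_neg, zpow_natCast]
    rw [e2, ← zpow_natCast (A ^ (-n ^ 2)) 2, ← zpow_mul, ← zpow_add₀ hA, ← zpow_add₀ hA]
    congr 1
    push_cast
    ring
  have hne : (A ^ (-n ^ 2)) ≠ 0 := zpow_ne_zero _ hA
  by_cases hc : c = 0
  · subst hc
    simp
  · have hA2 : A ^ 2 ≠ 0 := pow_ne_zero 2 hA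
    have e3 : a * A ^ (-(n + 1) ^ 2) * (b * A ^ (-(n - 1) ^ 2)) =
        a * b * (A ^ (-(n + 1) ^ 2) * A ^ (-(n - 1) ^ 2)) := by ring
    rw [e3, h]
    field_simp

/-- **Row NFO.** -/
theorem nfo (h1 : TcgStmt) (h2 : TauStmt) (h3 : RcgStmt) (h4 : RecStmt) (h5 : Rh2Stmt)
    (h6 : WxcStmt) : NfoStmt := by
  intro K I _ _ v θ g E L0 c e s T x W X Z δ D
  obtain ⟨W0, -, -, -, -, -, -, -⟩ := h6 K I v L0 c e W X D.wx
  obtain ⟨r1, r2, r3⟩ := h3 K v θ D.na D.th0.le D.th1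
  have hN : 0 < nv v (T 0) := nv_pos v _ (D.qs.T0 0)
  have hW : ∀ i, 0 < W i := D.wx.pos
  choose p hp using (fun k : ℤ => exists_mx v (T (k • Z)))
  have hnk : ∀ k : ℤ, nv v (T (k • Z)) = nv v (T 0) * W (k • Z) := by
    intro k
    have h := D.can k 0
    rwa [zero_smul, add_zero] at h
  have hp0 : v (T 0 (p 0)) = nv v (T 0) := by
    have h := hp 0
    rwa [zero_smul] at h
  obtain ⟨t, ht⟩ : ∃ t : ℤ → ℤ → K, ∀ k u, t k u = T (k • Z + u • δ) (p k) := ⟨_, fun _ _ => rfl⟩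
  have hvt : ∀ k u, v (t k u) = nv v (T 0) * W (k • Z + u • δ) := by
    intro k u
    rw [ht]
    exact (h2 K I v θ g E L0 c e s T x W X Z δ D k u (p k) (hp k)).1
  have htne : ∀ k u, t k u ≠ 0 := by
    intro k u h0
    have h := hvt k u
    rw [h0, map_zero] at h
    exact (mul_pos hN (hW _)).ne h
  have ht0 : ∀ k, t k 0 = T (k • Z) (p k) := by
    intro k
    rw [ht, zero_smul, add_zero]
  have ht1 : ∀ k, t k 1 = T (k • Z + δ) (p k) := by
    intro k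
    rw [ht, one_smul]
  have hT00 : T 0 (p 0) ≠ 0 := by
    intro h0
    rw [h0, map_zero] at hp0
    exact hN.ne hp0
  obtain ⟨A, hAdef⟩ : ∃ A : K, A = T δ (p 0) / T 0 (p 0) := ⟨_, rfl⟩
  have hvA : v A = W δ := by
    have h := (h1 K I v θ g E L0 c e s T x W X Z δ D 0 0 1 (p 0) hp0).1
    rw [one_smul] at h
    rw [hAdef]
    exact h
  have hA : A ≠ 0 := by
    intro h0
    rw [h0, map_zero] at hvA
    exact (hW δ).ne hvA
  -- TCG
  have s1 : ∀ k u : ℤ, v (t k (u + 1) * t k (u - 1) / (A ^ 2 * t k u ^ 2) - 1) ≤ θ := by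
    intro k u
    have h := (h1 K I v θ g E L0 c e s T x W X Z δ D k u 1 (p 0) hp0).2 (p k) (p k)
    rw [one_smul, ← hAdef] at h
    have e1 : k • Z + u • δ + δ = k • Z + (u + 1) • δ := by
      rw [add_smul, one_smul, add_assoc]
    have e2 : k • Z + u • δ - δ = k • Z + (u - 1) • δ := by
      rw [sub_smul, one_smul, add_sub_assoc]
    rw [e1, e2, ← ht, ← ht, ← ht] at h
    have hden : A ^ 2 * t k u ^ 2 ≠ 0 := mul_ne_zero (pow_ne_zero 2 hA) (pow_ne_zero 2 (htne k u))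
    have e3 : t k (u + 1) * t k (u - 1) / (A ^ 2 * t k u ^ 2) - 1 =
        (t k (u + 1) * t k (u - 1) - A ^ 2 * (t k u * t k u)) / (A ^ 2 * t k u ^ 2) := by
      rw [sub_div, ← sq, div_self hden]
    have e4 : v (A ^ 2 * t k u ^ 2) = nv v (T 0) ^ 2 * W (k • Z + u • δ) ^ 2 * W δ ^ 2 := by
      rw [map_mul, map_pow, map_pow, hvA, hvt]
      ring
    rw [e3, map_div₀, e4, div_le_iff₀ (by have := hW δ; have := hW (k • Z + u • δ); positivity)]
    exact h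
  -- REC for fixed k
  obtain ⟨ρ, hρ⟩ : ∃ ρ : ℤ → K, ∀ k, ρ k = t k 1 / t k 0 / A := ⟨_, fun _ => rfl⟩
  have hρne : ∀ k, ρ k ≠ 0 := by
    intro k
    rw [hρ]
    exact div_ne_zero (div_ne_zero (htne k 1) (htne k 0)) hA
  have s2 : ∀ k u : ℤ, v (t k u * A ^ (-u ^ 2) / (t k 0 * ρ k ^ u) - 1) ≤ θ := by
    intro k u
    have h := h4 K v θ (fun n => t k n * A ^ (-n ^ 2)) D.na D.th0.le D.th1
      (fun n => mul_ne_zero (htne k n) (zpow_ne_zero _ hA))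
      (fun n => by
        have e := expA A hA n (t k (n + 1)) (t k (n - 1)) (t k n)
        rw [e]
        exact s1 k n) u
    have e1 : t k 0 * A ^ (-(0 : ℤ) ^ 2) = t k 0 := by
      simp
    have e2 : t k 1 * A ^ (-(1 : ℤ) ^ 2) / t k 0 = ρ k := by
      rw [hρ, one_pow, zpow_neg, zpow_one]
      field_simp
    rw [e1, e2] at h
    exact h
  -- RH2
  have s3 : ∀ k : ℤ, v ((ρ (k + 1)) ^ 2 * (ρ (k - 1)) ^ 2 / ((ρ k) ^ 2) ^ 2 - 1) ≤ θ := by
    intro k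
    have a1 := h5 K I v θ g E L0 c e s T x W X Z δ D p hp k 1
    have a2 := h5 K I v θ g E L0 c e s T x W X Z δ D p hp k 0
    rw [add_zero, sub_zero] at a2
    obtain ⟨b, hb⟩ : ∃ b : K, b = T ((2 * k) • Z + (2 : ℤ) • δ) (p (2 * k)) /
      T ((2 * k) • Z) (p (2 * k)) := ⟨_, rfl⟩
    rw [← hb, ← ht1, ← ht1, ← ht0, ← ht0] at a1
    rw [← hb, ← ht1, ← ht0] at a2
    have hbne : b ≠ 0 := by
      rw [hb, ← ht, ← ht0]
      exact div_ne_zero (htne _ _) (htne _ _)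
    have a3 := r2 _ _ a1 (r1 _ a2).2
    have e1 : ρ (k + 1) ^ 2 * ρ (k - 1) ^ 2 / (ρ k ^ 2) ^ 2 =
        (t (k + 1) 1 / t (k + 1) 0 * (t (k - 1) 1 / t (k - 1) 0)) ^ 2 / b *
          ((t k 1 / t k 0 * (t k 1 / t k 0)) ^ 2 / b)⁻¹ := by
      rw [hρ, hρ, hρ]
      have n1 := htne (k + 1) 0
      have n2 := htne (k - 1) 0
      have n3 := htne k 0
      have n4 := htne k 1
      field_simp
    rw [e1]
    exact a3
  have hρ0 : ρ 0 = 1 := by
    have n3 := htne 0 0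
    rw [hρ, ht1, ht0, zero_smul, zero_add, ← hAdef]
    exact div_self hA
  obtain ⟨R, hR⟩ : ∃ R : K, R = ρ 1 ^ 2 := ⟨_, rfl⟩
  have hRne : R ≠ 0 := by
    rw [hR]
    exact pow_ne_zero 2 (hρne 1)
  have s4 : ∀ k : ℤ, v (ρ k ^ 2 / R ^ k - 1) ≤ θ := by
    intro k
    have h := h4 K v θ (fun n => ρ n ^ 2) D.na D.th0.le D.th1
      (fun n => pow_ne_zero 2 (hρne n)) (fun n => s3 n) k
    rw [hρ0, one_pow, div_one, one_mul, ← hR] at h
    exact h
  have hvR : v R = X Z δ ^ 2 := by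
    have e1 : v (ρ 1) = X Z δ := by
      rw [hρ, map_div₀, map_div₀, hvt, hvt, hvA, one_smul, one_smul, zero_smul, add_zero,
        D.wx.add Z δ]
      have := (hW Z).ne'
      have := (hW δ).ne'
      have := hN.ne'
      field_simp
    rw [hR, map_pow, e1]
  refine ⟨A, R, hA, hRne, hvA, hvR, ?_⟩
  intro k u a
  obtain ⟨B, hB⟩ : ∃ B : K, B = A ^ (4 * u ^ 2) * R ^ (k * u) := ⟨_, rfl⟩
  have hBne : B ≠ 0 := by
    rw [hB]
    exact mul_ne_zero (zpow_ne_zero _ hA) (zpow_ne_zero _ hRne)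
  have c1 := r2 _ _ (s2 k (2 * u)) (r3 _ u (s4 k))
  have e1 : t k (2 * u) * A ^ (-(2 * u) ^ 2) / (t k 0 * ρ k ^ (2 * u)) * (ρ k ^ 2 / R ^ k) ^ u =
      t k (2 * u) / (t k 0 * B) := by
    have e2 : A ^ (-(2 * u) ^ 2) = (A ^ (4 * u ^ 2))⁻¹ := by
      rw [← zpow_neg]
      congr 1
      ring
    have e3 : (ρ k ^ 2 / R ^ k) ^ u = ρ k ^ (2 * u) / R ^ (k * u) := by
      rw [div_zpow, ← zpow_mul, ← zpow_natCast (ρ k) 2, ← zpow_mul]
      rfl
    rw [e2, e3, hB]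
    have n1 : ρ k ^ (2 * u) ≠ 0 := zpow_ne_zero _ (hρne k)
    have n2 := htne k 0
    have n3 : A ^ (4 * u ^ 2) ≠ 0 := zpow_ne_zero _ hA
    have n4 : R ^ (k * u) ≠ 0 := zpow_ne_zero _ hRne
    field_simp
  rw [e1] at c1
  have c2 := (r1 _ c1).1
  have hk0 : v (t k 0) = nv v (T 0) * W (k • Z) := by
    rw [hvt, zero_smul, add_zero]
  have hvB : nv v (T 0) * W (k • Z) * v B = nv v (T 0) * W (k • Z + (2 * u) • δ) := by
    rw [map_div₀, map_mul, hk0, hvt, div_eq_one_iff_eq] at c2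
    · exact c2.symm
    · exact mul_ne_zero (mul_pos hN (hW _)).ne' (v.pos hBne).ne'
  have c3 := (h2 K I v θ g E L0 c e s T x W X Z δ D k (2 * u) (p k) (hp k)).2 a
  rw [← ht, ← ht0] at c3
  have c4 : v ((t k (2 * u) / t k 0 - B) * T (k • Z) a) ≤
      θ * (nv v (T 0) * W (k • Z + (2 * u) • δ)) := by
    have e4 : (t k (2 * u) / t k 0 - B) = (t k (2 * u) / (t k 0 * B) - 1) * B := by
      have n2 := htne k 0
      field_simp
    rw [e4, map_mul, map_mul, ← hvB]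
    have d1 : v (T (k • Z) a) ≤ nv v (T 0) * W (k • Z) := by
      rw [← hnk]
      exact le_nv v _ a
    calc v (t k (2 * u) / (t k 0 * B) - 1) * v B * v (T (k • Z) a)
        ≤ θ * v B * (nv v (T 0) * W (k • Z)) := by
          apply mul_le_mul (mul_le_mul_of_nonneg_right c1 (v.nonneg _)) d1 (v.nonneg _)
          exact mul_nonneg D.th0.le (v.nonneg _)
      _ = θ * (nv v (T 0) * W (k • Z) * v B) := by ring
  have e5 : T (k • Z + (2 * u) • δ) a - A ^ (4 * u ^ 2) * R ^ (k * u) * T (k • Z) a =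
      (T (k • Z + (2 * u) • δ) a - t k (2 * u) / t k 0 * T (k • Z) a) +
        (t k (2 * u) / t k 0 - B) * T (k • Z) a := by
    rw [hB]
    ring
  rw [e5]
  exact (D.na _ _).trans (max_le c3 c4)

end Pool.Agent.SZG.H28
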